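import Pool.Agent.Helper54.DI.StmtsA

/-! The functions of the local parametrization are not affine. -/

namespace Pool.Agent.Helper54.DI

open Finset Filter Topology

theorem z3_update_mem_ball {d : ℕ} (w y : Fin d → ℝ) (i : Fin d) (s ε : ℝ)
    (hy : dist y w < ε / 2) (hs : |s| < ε / 2) :
    dist (Function.update y i (y i + s)) w < ε := by
  have hε : 0 < ε / 2 := lt_of_le_of_lt dist_nonneg hy
  have h1 : dist (Function.update y i (y i + s)) y < ε / 2 := by
    rw [dist_pi_lt_iff hε]
    intro j
    by_cases hj : j = i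
    · subst hj
      rw [Function.update_self, Real.dist_eq]
      simpa using hs
    · rw [Function.update_of_ne hj, dist_self]
      exact hε
  calc dist (Function.update y i (y i + s)) w
      ≤ dist (Function.update y i (y i + s)) y + dist y w := dist_triangle _ _ _
    _ < ε / 2 + ε / 2 := add_lt_add h1 hy
    _ = ε := by ring

theorem z3_sum_update {d : ℕ} (a y : Fin d → ℝ) (i : Fin d) (s : ℝ) :
    ∑ j, a j * Function.update y i (y i + s) j = ∑ j, a j * y j + a i * s := by
  have h : ∀ j, a j * Function.update y i (y i + s) j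
      = a j * y j + (if j = i then a i * s else 0) := by
    intro j
    by_cases hj : j = i
    · subst hj
      rw [Function.update_self, if_pos rfl]
      ring
    · rw [Function.update_of_ne hj, if_neg hj]
      ring
  rw [Finset.sum_congr rfl (fun j _ => h j), Finset.sum_add_distrib, Finset.sum_ite_eq',
    if_pos (Finset.mem_univ i)]

theorem st_Z3 (hTOP : ST_TOP) : ST_Z3 := by
  intro d P J w F hL hP l hl
  rintro ⟨a, b, h⟩
  obtain ⟨ε, hε, hb⟩ := Metric.eventually_nhds_iff.1 (h.and hL.alg)
  have hε2 : 0 < ε / 2 := by linarith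
  -- coefficients outside `J` vanish
  have ha0 : ∀ i, i ∉ J → a i = 0 := by
    intro i hi
    have hs : |ε / 4| < ε / 2 := by
      rw [abs_of_pos (by linarith)]
      linarith
    have hw : dist w w < ε := by rw [dist_self]; exact hε
    have hw2 : dist w w < ε / 2 := by rw [dist_self]; exact hε2
    have h1 := (hb hw).1
    have h2 := (hb (z3_update_mem_ball w w i (ε / 4) ε hw2 hs)).1
    have h3 : F (Function.update w i (w i + ε / 4)) = F w := by
      refine hL.dep _ _ ?_
      intro j hj
      have hji : j ≠ i := by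
        rintro rfl
        exact hi hj
      rw [Function.update_of_ne hji]
    rw [h3, h1, z3_sum_update] at h2
    have h4 : a i * (ε / 4) = 0 := by linarith
    rcases mul_eq_zero.1 h4 with h5 | h5
    · exact h5
    · exfalso
      linarith
  -- a rational point near `w`
  have hq : ∀ i, ∃ q : ℚ, w i < (q : ℝ) ∧ (q : ℝ) < w i + ε / 2 := fun i =>
    exists_rat_btwn (by linarith)
  choose q hq1 hq2 using hq
  obtain ⟨s, hs1, hs2⟩ := exists_rat_btwn hε2
  let y : Fin d → ℝ := fun i => (q i : ℝ)
  have hy : dist y w < ε / 2 := by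
    rw [dist_pi_lt_iff hε2]
    intro i
    rw [Real.dist_eq, abs_of_pos (by have := hq1 i; simp only [y]; linarith)]
    have := hq2 i
    simp only [y]
    linarith
  have hyε : dist y w < ε := by linarith
  have hrat : ∀ r : ℚ, (r : ℝ) ∈ KK := fun r => by simp
  have hyK : ∀ i, y i ∈ KK := fun i => hrat (q i)
  have hFy : F y l ∈ KK := (hb hyε).2 hyK l
  have hval : F y l = ∑ i, a i * y i + b := (hb hyε).1
  have haK : ∀ i, a i ∈ KK := by
    intro i
    have hsa : |(s : ℝ)| < ε / 2 := by
      rw [abs_of_pos hs1]
      exact hs2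
    have hz := z3_update_mem_ball w y i (s : ℝ) ε hy hsa
    have hzK : ∀ j, Function.update y i (y i + (s : ℝ)) j ∈ KK := by
      intro j
      by_cases hj : j = i
      · subst hj
        rw [Function.update_self]
        exact KK.add_mem (hyK j) (hrat s)
      · rw [Function.update_of_ne hj]
        exact hyK j
    have hFz : F (Function.update y i (y i + (s : ℝ))) l ∈ KK := (hb hz).2 hzK l
    have hvz := (hb hz).1
    rw [z3_sum_update] at hvz
    have hdiff : F (Function.update y i (y i + (s : ℝ))) l - F y l = a i * (s : ℝ) := by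
      rw [hvz, hval]
      ring
    have hai : a i = (F (Function.update y i (y i + (s : ℝ))) l - F y l) * (s : ℝ)⁻¹ := by
      rw [hdiff, mul_assoc, mul_inv_cancel₀ (ne_of_gt hs1), mul_one]
    rw [hai]
    exact KK.mul_mem (KK.sub_mem hFz hFy) (KK.inv_mem (hrat s))
  have hbK : b ∈ KK := by
    have : b = F y l - ∑ i, a i * y i := by
      rw [hval]
      ring
    rw [this]
    exact KK.sub_mem hFy (KK.sum_mem fun i _ => KK.mul_mem (haK i) (hyK i))
  -- the affine form
  let f : KForm d := (fun i => (if i = l then 1 else 0) - ⟨a i, haK i⟩, -⟨b, hbK⟩)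
  have hf : f.1 ≠ 0 := by
    intro h0
    have h1 : f.1 l = 0 := by rw [h0]; rfl
    have h2 : f.1 l = 1 - ⟨a l, haK l⟩ := by simp [f]
    have h3 : (⟨a l, haK l⟩ : KK) = 0 := by
      apply Subtype.ext
      simpa using ha0 l hl
    rw [h2, h3, sub_zero] at h1
    exact one_ne_zero h1
  refine hP f hf (hL.dense _ ?_)
  filter_upwards [h] with x hx
  rw [hTOP]
  unfold kev
  have hterm : ∀ i, ((f.1 i : KK) : ℝ) * F x i = (if i = l then F x l else 0) - a i * x i := by
    intro i
    have h1 : ((f.1 i : KK) : ℝ) = (if i = l then 1 else 0) - a i := by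
      by_cases hi : i = l
      · subst hi
        simp [f]
      · simp [f, hi]
    rw [h1]
    have h2 : a i * F x i = a i * x i := by
      by_cases hi : i ∈ J
      · rw [hL.idJ x i hi]
      · rw [ha0 i hi, zero_mul, zero_mul]
    by_cases hi : i = l
    · subst hi
      rw [if_pos rfl, if_pos rfl, sub_mul, one_mul, h2]
    · rw [if_neg hi, if_neg hi, sub_mul, zero_mul, h2]
  rw [Finset.sum_congr rfl (fun i _ => hterm i), Finset.sum_sub_distrib, Finset.sum_ite_eq',
    if_pos (Finset.mem_univ l), hx]
  have hf2 : ((f.2 : KK) : ℝ) = -b := by simp [f]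
  rw [hf2]
  ring

end Pool.Agent.Helper54.DI
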